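import Pool.Agent.Helper1.KU.Final

/-!
# `MP_538d4f_lc`: an SMM that no Kolmogorov-Uspenskii machine simulates in real time
-/

namespace Pool.Agent.Results.MP_538d4f_lc.NoRealTimeSimulation

open Pool.Agent.Helper1.KU

/-- There is a storage modification machine that no Kolmogorov-Uspenskii machine simulates in
real time. -/
theorem result : ∃ M : SMM, ∀ K : KUM, ¬ RealTimeSimulates K M :=
  ⟨mach, not_realTimeSimulates⟩

end Pool.Agent.Results.MP_538d4f_lc.NoRealTimeSimulation
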